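import Mathlib

/-!
# A Phragmen-Lindelof bound in a half strip, and crude bounds for the Gamma function
-/

set_option autoImplicit false

open Complex MeasureTheory Set Filter Topology

namespace Pool.Agent.H94.HK

/-- Phragmen-Lindelof in the half strip `a ≤ re s ≤ b`, `1 ≤ im s`, for functions of exponential
growth. -/
theorem half_strip (f : ℂ → ℂ) (a b : ℝ) (hab : a < b)
    (hf : ∀ s : ℂ, 0 < s.im → DifferentiableAt ℂ f s) (A c : ℝ)
    (hcr : ∀ s : ℂ, a ≤ s.re → s.re ≤ b → 1 ≤ s.im → ‖f s‖ ≤ A * Real.exp (c * s.im))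
    (M : ℝ) (hM : 0 < M)
    (hl : ∀ s : ℂ, s.re = a → 1 ≤ s.im → ‖f s‖ ≤ M)
    (hr : ∀ s : ℂ, s.re = b → 1 ≤ s.im → ‖f s‖ ≤ M)
    (hb : ∀ s : ℂ, a ≤ s.re → s.re ≤ b → s.im = 1 → ‖f s‖ ≤ M) :
    ∀ s : ℂ, a ≤ s.re → s.re ≤ b → 1 ≤ s.im → ‖f s‖ ≤ M := by
  intro s hs1 hs2 hs3
  set r := max (a ^ 2) (b ^ 2) with hr0
  have hre : ∀ x : ℝ, a ≤ x → x ≤ b → x ^ 2 ≤ r := by
    intro x h1 h2
    rw [hr0]
    rcases le_total 0 x with h | h
    · exact le_max_of_le_right (by nlinarith)
    · exact le_max_of_le_left (by nlinarith)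
  have hr00 : 0 ≤ r := le_max_of_le_left (sq_nonneg a)
  -- for every `ε`
  have key : ∀ ε : ℝ, 0 < ε → ‖f s‖ * Real.exp (ε * (s.re ^ 2 - s.im ^ 2)) ≤
      M * Real.exp (ε * r) := by
    intro ε hε
    -- choice of the height
    obtain ⟨T, hT1, hT2⟩ : ∃ T : ℝ, s.im < T ∧ A * Real.exp (c * T - ε * T ^ 2) ≤ M := by
      have h1 : Tendsto (fun T : ℝ => c * T - ε * T ^ 2) atTop atBot := by
        have h2 : Tendsto (fun T : ℝ => T * (c - ε * T)) atTop atBot := by
          apply Tendsto.atTop_mul_atBot₀ tendsto_id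
          have h3 : Tendsto (fun T : ℝ => ε * T) atTop atTop :=
            tendsto_id.const_mul_atTop hε
          have h4 := tendsto_neg_atTop_atBot.comp h3
          have h5 := tendsto_atBot_add_const_left atTop c h4
          refine h5.congr fun T => ?_
          simp only [Function.comp_apply]
          ring
        refine h2.congr fun T => ?_
        ring
      have h3 : Tendsto (fun T : ℝ => A * Real.exp (c * T - ε * T ^ 2)) atTop (𝓝 (A * 0)) :=
        (Real.tendsto_exp_atBot.comp h1).const_mul A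
      rw [mul_zero] at h3
      have h4 := h3.eventually_le_const hM
      obtain ⟨T, h5, h6⟩ := (h4.and (eventually_gt_atTop s.im)).exists
      exact ⟨T, h6, h5⟩
    set g : ℂ → ℂ := fun z => f z * cexp (ε * z ^ 2) with hg
    have hgn : ∀ z : ℂ, ‖g z‖ = ‖f z‖ * Real.exp (ε * (z.re ^ 2 - z.im ^ 2)) := by
      intro z
      rw [hg]
      simp only
      rw [norm_mul, norm_exp]
      congr 2
      rw [re_ofReal_mul, pow_two z, mul_re]
      ring
    have hgd : ∀ z : ℂ, 0 < z.im → DifferentiableAt ℂ g z := by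
      intro z hz
      exact (hf z hz).mul (by fun_prop)
    set U : Set ℂ := Ioo a b ×ℂ Ioo 1 T with hU
    have hclU : closure U = Icc a b ×ℂ Icc 1 T := by
      rw [hU, closure_reProdIm, closure_Ioo hab.ne, closure_Ioo (by linarith)]
    have hbd : Bornology.IsBounded U := by
      have : Bornology.IsBounded (Icc a b ×ℂ Icc 1 T) :=
        (isCompact_Icc.reProdIm isCompact_Icc).isBounded
      exact this.subset (by rw [← hclU]; exact subset_closure)
    have hd : DiffContOnCl ℂ g U := by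
      apply DifferentiableOn.diffContOnCl
      intro z hz
      rw [hclU] at hz
      have h1 : 1 ≤ z.im := (mem_reProdIm.mp hz).2.1
      exact (hgd z (by linarith)).differentiableWithinAt
    have hedge : ∀ z : ℂ, a ≤ z.re → z.re ≤ b → 1 ≤ z.im → ‖f z‖ ≤ M →
        ‖g z‖ ≤ M * Real.exp (ε * r) := by
      intro z h1 h2 h3 h4
      rw [hgn]
      apply mul_le_mul h4 _ (Real.exp_pos _).le hM.le
      apply Real.exp_le_exp.mpr
      apply mul_le_mul_of_nonneg_left _ hε.le
      have := hre z.re h1 h2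
      nlinarith [sq_nonneg z.im]
    have hfr : ∀ z ∈ frontier U, ‖g z‖ ≤ M * Real.exp (ε * r) := by
      intro z hz
      rw [hU, frontier_reProdIm, closure_Ioo hab.ne, closure_Ioo (by linarith),
        frontier_Ioo hab, frontier_Ioo (by linarith)] at hz
      rcases hz with hz | hz
      · obtain ⟨⟨h1, h2⟩, h3⟩ := mem_reProdIm.mp hz
        rcases h3 with h3 | h3
        · exact hedge z h1 h2 (by rw [h3]) (hb z h1 h2 h3)
        · rw [mem_singleton_iff] at h3
          rw [hgn]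
          have h4 := hcr z h1 h2 (by rw [h3]; linarith)
          rw [h3] at h4 ⊢
          calc ‖f z‖ * Real.exp (ε * (z.re ^ 2 - T ^ 2))
              ≤ (A * Real.exp (c * T)) * Real.exp (ε * (z.re ^ 2 - T ^ 2)) :=
                mul_le_mul_of_nonneg_right h4 (Real.exp_pos _).le
            _ = (A * Real.exp (c * T - ε * T ^ 2)) * Real.exp (ε * z.re ^ 2) := by
                rw [mul_assoc, mul_assoc, ← Real.exp_add, ← Real.exp_add]
                congr 2
                ring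
            _ ≤ M * Real.exp (ε * r) := by
                apply mul_le_mul hT2 _ (Real.exp_pos _).le hM.le
                apply Real.exp_le_exp.mpr
                exact mul_le_mul_of_nonneg_left (hre _ h1 h2) hε.le
      · obtain ⟨h3, ⟨h1, h2⟩⟩ := mem_reProdIm.mp hz
        rcases h3 with h3 | h3
        · exact hedge z h3.ge (by rw [h3]; exact hab.le) h1 (hl z h3 h1)
        · rw [mem_singleton_iff] at h3
          exact hedge z (by rw [h3]; exact hab.le) h3.le h1 (hr z h3 h1)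
    have hmem : s ∈ closure U := by
      rw [hclU]
      exact mem_reProdIm.mpr ⟨⟨hs1, hs2⟩, ⟨hs3, hT1.le⟩⟩
    have := norm_le_of_forall_mem_frontier_norm_le hbd hd hfr hmem
    rwa [hgn] at this
  -- let `ε` tend to zero
  have hlim1 : Tendsto (fun ε : ℝ => ‖f s‖ * Real.exp (ε * (s.re ^ 2 - s.im ^ 2))) (𝓝[>] 0)
      (𝓝 (‖f s‖ * Real.exp (0 * (s.re ^ 2 - s.im ^ 2)))) := by
    apply Tendsto.mono_left _ nhdsWithin_le_nhds
    exact (Continuous.tendsto (by fun_prop) 0)
  have hlim2 : Tendsto (fun ε : ℝ => M * Real.exp (ε * r)) (𝓝[>] 0)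
      (𝓝 (M * Real.exp (0 * r))) := by
    apply Tendsto.mono_left _ nhdsWithin_le_nhds
    exact (Continuous.tendsto (by fun_prop) 0)
  have := le_of_tendsto_of_tendsto hlim1 hlim2
    (eventually_nhdsWithin_of_forall (fun ε hε => key ε hε))
  simpa using this

/-- trivial bound for the Gamma function -/
theorem norm_Gamma_le_re (w : ℂ) (hw : 0 < w.re) : ‖Complex.Gamma w‖ ≤ Real.Gamma w.re := by
  rw [Complex.Gamma_eq_integral hw, Real.Gamma_eq_integral hw]
  unfold Complex.GammaIntegral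
  refine (norm_integral_le_integral_norm _).trans (le_of_eq ?_)
  apply setIntegral_congr_fun measurableSet_Ioi
  intro x hx
  have hx0 : 0 < x := hx
  simp only
  rw [norm_mul, norm_real, Real.norm_eq_abs, abs_of_pos (Real.exp_pos _),
    norm_cpow_eq_rpow_re_of_pos hx0]
  simp

/-- upper bound for the Gamma function in a vertical strip away from the real axis -/
theorem Gamma_upper (b : ℝ) : ∃ C : ℝ, 0 < C ∧ ∀ w : ℂ, |w.re| ≤ b → 1 / 2 ≤ |w.im| →
    ‖Complex.Gamma w‖ ≤ C := by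
  set b' := max b 2 with hb'
  have hb1 : 2 ≤ b' := le_max_right _ _
  obtain ⟨C₀, hC₀⟩ : ∃ C : ℝ, ∀ x ∈ Icc (1 : ℝ) b', ‖Real.Gamma x‖ ≤ C := by
    apply isCompact_Icc.exists_bound_of_continuousOn
    intro x hx
    apply ContinuousAt.continuousWithinAt
    apply (Real.differentiableAt_Gamma _).continuousAt
    intro m hm
    have h1 : (0 : ℝ) ≤ m := Nat.cast_nonneg m
    linarith [hx.1]
  have hstep : ∀ n : ℕ, ∃ C : ℝ, 0 < C ∧ ∀ w : ℂ, 1 - (n : ℝ) ≤ w.re → w.re ≤ b' →
      1 / 2 ≤ |w.im| → ‖Complex.Gamma w‖ ≤ C := by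
    intro n
    induction n with
    | zero =>
      refine ⟨max C₀ 1, by positivity, fun w h1 h2 _ => ?_⟩
      rw [Nat.cast_zero, sub_zero] at h1
      refine (norm_Gamma_le_re w (by linarith)).trans ?_
      exact (le_trans (le_abs_self _) (hC₀ w.re ⟨h1, h2⟩)).trans (le_max_left _ _)
    | succ n ih =>
      obtain ⟨C, hC, hbd⟩ := ih
      refine ⟨2 * C, by positivity, fun w h1 h2 h3 => ?_⟩
      rcases le_or_gt (1 - (n : ℝ)) w.re with h | h
      · have := hbd w h h2 h3
        linarith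
      · have hw0 : w ≠ 0 := by
          rintro rfl
          simp at h3
          linarith
        have h4 : Complex.Gamma w = Complex.Gamma (w + 1) / w := by
          rw [Complex.Gamma_add_one w hw0]; field_simp
        push_cast at h1
        have h5 := hbd (w + 1) (by rw [add_re, one_re]; linarith)
          (by
            rw [add_re, one_re]
            have : (0 : ℝ) ≤ n := Nat.cast_nonneg n
            linarith)
          (by rw [add_im, one_im, add_zero]; exact h3)
        rw [h4, norm_div, div_le_iff₀ (norm_pos_iff.mpr hw0)]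
        have h6 : 1 / 2 ≤ ‖w‖ := h3.trans (abs_im_le_norm w)
        nlinarith
  obtain ⟨n, hn⟩ := exists_nat_ge (1 + b)
  obtain ⟨C, hC, hbd⟩ := hstep n
  refine ⟨C, hC, fun w h1 h2 => hbd w ?_ ?_ h2⟩
  · have := (abs_le.mp h1).1
    linarith
  · exact ((abs_le.mp h1).2).trans (le_max_left _ _)

/-- `‖sin z‖ ≤ exp |im z|` -/
theorem norm_sin_le_exp (z : ℂ) : ‖Complex.sin z‖ ≤ Real.exp |z.im| := by
  rw [Complex.sin, norm_div, norm_mul, norm_I, mul_one, Complex.norm_ofNat]
  have h1 : ‖cexp (-z * I)‖ ≤ Real.exp |z.im| := by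
    rw [norm_exp]
    apply Real.exp_le_exp.mpr
    simp only [mul_re, neg_re, I_re, mul_zero, neg_im, I_im, mul_one, zero_sub, neg_neg]
    exact le_abs_self _
  have h2 : ‖cexp (z * I)‖ ≤ Real.exp |z.im| := by
    rw [norm_exp]
    apply Real.exp_le_exp.mpr
    simp only [mul_re, I_re, mul_zero, I_im, mul_one, zero_sub]
    exact neg_le_abs _
  have h3 := norm_sub_le (cexp (-z * I)) (cexp (z * I))
  rw [div_le_iff₀ (by norm_num)]
  linarith

/-- lower bound for the Gamma function in a vertical strip away from the real axis -/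
theorem Gamma_lower (b : ℝ) : ∃ c : ℝ, 0 < c ∧ ∀ w : ℂ, |w.re| ≤ b → 1 / 2 ≤ |w.im| →
    c * Real.exp (-(Real.pi * |w.im|)) ≤ ‖Complex.Gamma w‖ := by
  obtain ⟨C, hC, hbd⟩ := Gamma_upper (1 + b)
  refine ⟨Real.pi / C, by positivity, fun w h1 h2 => ?_⟩
  have hw : w.im ≠ 0 := by
    intro h; rw [h, abs_zero] at h2; norm_num at h2
  have h3 : ‖Complex.Gamma (1 - w)‖ ≤ C := by
    apply hbd
    · rw [sub_re, one_re]
      calc |1 - w.re| ≤ |1| + |w.re| := abs_sub _ _
        _ ≤ 1 + b := by rw [abs_one]; linarith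
    · rw [sub_im, one_im, zero_sub, abs_neg]; exact h2
  have h4 := Complex.Gamma_mul_Gamma_one_sub w
  have h5 : Complex.sin (Real.pi * w) ≠ 0 := by
    rw [Complex.sin_ne_zero_iff]
    intro k hk
    have := congrArg Complex.im hk
    rw [im_ofReal_mul] at this
    simp at this
    exact hw this
  have h6 : ‖Complex.sin (Real.pi * w)‖ ≤ Real.exp (Real.pi * |w.im|) := by
    have := norm_sin_le_exp (Real.pi * w)
    rwa [im_ofReal_mul, abs_mul, abs_of_pos Real.pi_pos] at this
  have h7 : ‖Complex.Gamma w‖ * ‖Complex.Gamma (1 - w)‖ * ‖Complex.sin (Real.pi * w)‖ = Real.pi := by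
    rw [← norm_mul, ← norm_mul, h4, div_mul_cancel₀ _ h5, norm_real, Real.norm_eq_abs,
      abs_of_pos Real.pi_pos]
  have h8 : Real.pi ≤ ‖Complex.Gamma w‖ * C * Real.exp (Real.pi * |w.im|) := by
    calc Real.pi = ‖Complex.Gamma w‖ * ‖Complex.Gamma (1 - w)‖ * ‖Complex.sin (Real.pi * w)‖ :=
          h7.symm
      _ ≤ _ := by gcongr
  rw [Real.exp_neg, ← div_eq_mul_inv, div_le_iff₀ (Real.exp_pos _), div_le_iff₀ hC]
  linarith

/-- lower bound for `Gammaℝ` -/
theorem GammaR_lower (b : ℝ) : ∃ c : ℝ, 0 < c ∧ ∀ s : ℂ, |s.re| ≤ b → 1 ≤ |s.im| →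
    c * Real.exp (-(Real.pi * |s.im|)) ≤ ‖Gammaℝ s‖ := by
  obtain ⟨c, hc, hbd⟩ := Gamma_lower b
  refine ⟨Real.pi ^ (-b / 2) * c, by positivity, fun s h1 h2 => ?_⟩
  have him : (s / 2).im = s.im / 2 := by simp
  have hre : (s / 2).re = s.re / 2 := by simp
  have h3 := hbd (s / 2) (by
    rw [hre, abs_div, abs_two]
    have := abs_nonneg s.re
    linarith) (by
    rw [him, abs_div, abs_two]; linarith)
  rw [him, abs_div, abs_two] at h3
  rw [Gammaℝ_def, norm_mul, norm_cpow_eq_rpow_re_of_pos Real.pi_pos]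
  have h4 : (-s / 2).re = -s.re / 2 := by simp
  rw [h4]
  have h5 : Real.pi ^ (-b / 2) ≤ Real.pi ^ (-s.re / 2) := by
    apply Real.rpow_le_rpow_of_exponent_le (by linarith [Real.pi_gt_three])
    have := (abs_le.mp h1).2
    linarith
  have h6 : Real.exp (-(Real.pi * |s.im|)) ≤ Real.exp (-(Real.pi * (|s.im| / 2))) := by
    apply Real.exp_le_exp.mpr
    have := abs_nonneg s.im
    nlinarith [Real.pi_pos]
  calc Real.pi ^ (-b / 2) * c * Real.exp (-(Real.pi * |s.im|))
      = Real.pi ^ (-b / 2) * (c * Real.exp (-(Real.pi * |s.im|))) := by ring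
    _ ≤ Real.pi ^ (-s.re / 2) * (c * Real.exp (-(Real.pi * (|s.im| / 2)))) := by gcongr
    _ ≤ Real.pi ^ (-s.re / 2) * ‖Complex.Gamma (s / 2)‖ := by gcongr

/-- lower bound for `Gammaℂ` -/
theorem GammaC_lower (b : ℝ) : ∃ c : ℝ, 0 < c ∧ ∀ s : ℂ, |s.re| ≤ b → 1 ≤ |s.im| →
    c * Real.exp (-(Real.pi * |s.im|)) ≤ ‖Gammaℂ s‖ := by
  obtain ⟨c, hc, hbd⟩ := Gamma_lower b
  refine ⟨2 * (2 * Real.pi) ^ (-b) * c, by positivity, fun s h1 h2 => ?_⟩
  have h3 := hbd s h1 (by linarith)
  have h2pi : (0 : ℝ) < 2 * Real.pi := by positivity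
  have e : (2 * Real.pi : ℂ) = ((2 * Real.pi : ℝ) : ℂ) := by push_cast; ring
  rw [Gammaℂ_def, norm_mul, norm_mul, e, norm_cpow_eq_rpow_re_of_pos h2pi, Complex.norm_ofNat]
  have h5 : (2 * Real.pi) ^ (-b) ≤ (2 * Real.pi) ^ (-s).re := by
    apply Real.rpow_le_rpow_of_exponent_le (by linarith [Real.pi_gt_three])
    have := (abs_le.mp h1).2
    rw [neg_re]
    linarith
  calc 2 * (2 * Real.pi) ^ (-b) * c * Real.exp (-(Real.pi * |s.im|))
      = 2 * (2 * Real.pi) ^ (-b) * (c * Real.exp (-(Real.pi * |s.im|))) := by ring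
    _ ≤ 2 * (2 * Real.pi) ^ (-s).re * ‖Complex.Gamma s‖ := by gcongr

/-- L-series are bounded on vertical lines -/
theorem norm_LSeries_le (f : ℕ → ℂ) (s : ℂ) :
    ‖LSeries f s‖ ≤ ∑' n, ‖LSeries.term f s.re n‖ := by
  have h1 : ∀ n, ‖LSeries.term f s n‖ = ‖LSeries.term f s.re n‖ := by
    intro n
    rw [LSeries.norm_term_eq, LSeries.norm_term_eq, ofReal_re]
  have h2 : ∑' n, ‖LSeries.term f s.re n‖ = ∑' n, ‖LSeries.term f s n‖ :=
    tsum_congr (fun n => (h1 n).symm)
  rw [h2, LSeries]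
  by_cases h : Summable (fun n => ‖LSeries.term f s n‖)
  · exact norm_tsum_le_tsum_norm h
  · have h3 : ¬ Summable (LSeries.term f s) := fun h4 => h h4.norm
    rw [tsum_eq_zero_of_not_summable h3, norm_zero]
    exact tsum_nonneg (fun n => norm_nonneg _)

end Pool.Agent.H94.HK
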