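import Pool.Agent.H25.HK.Targets
import Pool.Agent.H89.DL.YB
import Pool.Agent.H94.HK.Strip

/-!
# Module GW: polynomial growth of the Dedekind zeta function in vertical strips
-/

set_option autoImplicit false

open NumberField NumberField.InfinitePlace Complex MeasureTheory Set Filter Topology

namespace Pool.Agent.H94.HK

open Pool.Agent.H25.HK

/-- the factor of the functional equation -/
noncomputable def Fk (κ : ℝ) (w : ℂ) : ℂ := Gammaℂ w * Complex.cos (Real.pi * (w - κ) / 2)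

lemma norm_GammaC_conj (w : ℂ) : ‖Gammaℂ ((starRingEnd ℂ) w)‖ = ‖Gammaℂ w‖ := by
  have h2pi : (0 : ℝ) < 2 * Real.pi := by positivity
  have e : (2 * Real.pi : ℂ) = ((2 * Real.pi : ℝ) : ℂ) := by push_cast; ring
  rw [Gammaℂ_def, Gammaℂ_def, norm_mul, norm_mul, norm_mul, norm_mul, e,
    norm_cpow_eq_rpow_re_of_pos h2pi, norm_cpow_eq_rpow_re_of_pos h2pi, Gamma_conj,
    RCLike.norm_conj]
  simp

lemma norm_Fk_conj (κ : ℝ) (w : ℂ) : ‖Fk κ ((starRingEnd ℂ) w)‖ = ‖Fk κ w‖ := by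
  unfold Fk
  rw [norm_mul, norm_mul, norm_GammaC_conj]
  congr 1
  have : (Real.pi * ((starRingEnd ℂ) w - κ) / 2 : ℂ) = (starRingEnd ℂ) (Real.pi * (w - κ) / 2) := by
    simp [map_ofNat]
  rw [this, Complex.cos_conj, RCLike.norm_conj]

/-- bound on a vertical line -/
lemma Fk_bound (B : ℝ) (hB : 1 / 2 ≤ B) : ∃ C : ℝ, 0 < C ∧ ∀ κ : ℝ, (κ = 0 ∨ κ = 1) → ∀ w : ℂ,
    w.re = B → 1 ≤ |w.im| → ‖Fk κ w‖ ≤ C * |w.im| ^ (B - 1 / 2) := by
  obtain ⟨C, hC, hbd⟩ := Pool.Agent.H89.DL.yb B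
  refine ⟨C, hC, fun κ hκ w hw him => ?_⟩
  rcases le_total 0 w.im with h | h
  · rw [abs_of_nonneg h] at him ⊢
    have h1 := (hbd κ hκ B w.im hB le_rfl him).2
    have h2 : (B + w.im * I : ℂ) = w := by rw [← hw]; exact re_add_im w
    rw [h2] at h1
    exact h1
  · rw [abs_of_nonpos h] at him ⊢
    have h1 := (hbd κ hκ B (-w.im) hB le_rfl him).2
    have h2 : (B + (-w.im : ℝ) * I : ℂ) = (starRingEnd ℂ) w := by
      apply Complex.ext
      · simp [hw]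
      · simp
    rw [h2] at h1
    rw [← norm_Fk_conj]
    exact h1

lemma gammaR_ne {w : ℂ} (h : w.im ≠ 0) : Gammaℝ w ≠ 0 := by
  rw [Ne, Gammaℝ_eq_zero_iff, not_exists]
  intro n hn
  apply h
  rw [hn]; simp

lemma gammaR_ratio (w : ℂ) (h : w.im ≠ 0) : Gammaℝ w = Gammaℝ (1 - w) * Fk 0 w := by
  have h1 : Gammaℝ (1 - w) ≠ 0 := gammaR_ne (by simpa using h)
  have h2 := Gammaℝ_div_Gammaℝ_one_sub (s := w) (by
    intro n hn
    apply h
    rw [hn]; simp)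
  rw [div_eq_iff h1] at h2
  rw [h2, Fk]
  simp only [ofReal_zero, sub_zero]
  ring

lemma gammaC_ratio (w : ℂ) (h : w.im ≠ 0) :
    Gammaℂ w = Gammaℂ (1 - w) * (Fk 0 w * Fk 1 w) := by
  have h1 : Gammaℝ (2 - w) ≠ 0 := gammaR_ne (by simpa using h)
  have h2 : Gammaℝ (w + 1) ≠ 0 := gammaR_ne (by simpa using h)
  have h3 := inv_Gammaℝ_two_sub (s := w) (by
    intro n hn
    apply h
    rw [hn]; simp)
  have h4 : Gammaℂ w * Complex.sin (Real.pi * w / 2) = Fk 1 w := by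
    rw [Fk]
    congr 1
    have : (Real.pi * (w - (1 : ℝ)) / 2 : ℂ) = Real.pi * w / 2 - Real.pi / 2 := by
      push_cast; ring
    rw [this, Complex.cos_sub_pi_div_two]
  rw [h4] at h3
  have h5 : Gammaℝ (w + 1) = Gammaℝ (2 - w) * Fk 1 w := by
    rw [← div_eq_mul_inv, inv_eq_one_div, div_eq_div_iff h1 h2] at h3
    rw [one_mul] at h3
    rw [h3]; ring
  have h6 : (1 - w) + 1 = 2 - w := by ring
  rw [← Gammaℝ_mul_Gammaℝ_add_one w, ← Gammaℝ_mul_Gammaℝ_add_one (1 - w), h6, h5,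
    gammaR_ratio w h]
  ring

/-- the zeta function is bounded on vertical lines -/
lemma zeta_line (K : Type) [Field K] [NumberField K] (Z : ℂ → ℂ) (hZ : IsZ K Z) (B : ℝ)
    (hB : 1 < B) : ∃ M : ℝ, 0 ≤ M ∧ ∀ w : ℂ, w.re = B → ‖Z w‖ ≤ M := by
  refine ⟨∑' n, ‖LSeries.term (fun n ↦ (Nat.card {I : Ideal (𝓞 K) // Ideal.absNorm I = n} : ℂ))
    (B : ℂ) n‖, tsum_nonneg (fun _ => norm_nonneg _), fun w hw => ?_⟩
  rw [hZ.2 w (by rw [hw]; exact hB)]
  have := norm_LSeries_le (fun n ↦ (Nat.card {I : Ideal (𝓞 K) // Ideal.absNorm I = n} : ℂ)) w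
  rw [hw] at this
  exact this

set_option maxHeartbeats 1000000 in
/-- the left edge -/
lemma left_edge (K : Type) [Field K] [NumberField K] (Z : ℂ → ℂ) (hZ : IsZ K Z)
    (hfe : ∀ s : ℂ, s.im ≠ 0 → comp K Z s = comp K Z (1 - s)) (B : ℝ) (hB : 1 < B) :
    ∃ (C : ℝ) (N : ℕ), 0 < C ∧ ∀ s : ℂ, s.re = 1 - B → 1 ≤ s.im → ‖Z s‖ ≤ C * s.im ^ N := by
  obtain ⟨C, hC, hbd⟩ := Fk_bound B (by linarith)
  obtain ⟨m, hm⟩ := exists_nat_ge (B - 1 / 2)
  set D : ℝ := |(discr K : ℝ)| with hD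
  have hD0 : 0 < D := abs_pos.mpr (Int.cast_ne_zero.mpr (discr_ne_zero K))
  obtain ⟨M, hM0, hM⟩ := zeta_line K Z hZ B (by linarith)
  refine ⟨D ^ (B - 1 / 2) * (C ^ nrRealPlaces K * (C * C) ^ nrComplexPlaces K) * (M + 1),
    m * nrRealPlaces K + (m + m) * nrComplexPlaces K, by positivity, fun s hs1 hs2 => ?_⟩
  set w := 1 - s with hw
  have hs : s = 1 - w := by rw [hw]; ring
  have hsim : s.im ≠ 0 := by
    intro h; rw [h] at hs2; norm_num at hs2
  have hwim : w.im ≠ 0 := by rw [hw]; simpa using hsim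
  have hwre : w.re = B := by rw [hw, sub_re, one_re, hs1]; ring
  have hwabs : |w.im| = s.im := by
    rw [hw, sub_im, one_im, zero_sub, abs_neg, abs_of_pos (by linarith)]
  have hZw : ‖Z w‖ ≤ M := hM w hwre
  have hF : ∀ κ : ℝ, (κ = 0 ∨ κ = 1) → ‖Fk κ w‖ ≤ C * s.im ^ m := by
    intro κ hκ
    refine (hbd κ hκ w hwre (by rw [hwabs]; exact hs2)).trans ?_
    rw [hwabs, ← Real.rpow_natCast s.im m]
    apply mul_le_mul_of_nonneg_left _ hC.le
    exact Real.rpow_le_rpow_of_exponent_le hs2 hm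
  have hF0 := hF 0 (Or.inl rfl)
  have hF1 := hF 1 (Or.inr rfl)
  -- the Gamma factors
  have hg : ‖gK K w‖ = ‖gK K s‖ * (‖Fk 0 w‖ ^ nrRealPlaces K *
      (‖Fk 0 w‖ * ‖Fk 1 w‖) ^ nrComplexPlaces K) := by
    unfold gK
    rw [gammaR_ratio w hwim, gammaC_ratio w hwim, ← hs]
    simp only [norm_mul, norm_pow, mul_pow]
    ring
  have hgs : gK K s ≠ 0 := by
    unfold gK
    apply mul_ne_zero
    · exact pow_ne_zero _ (gammaR_ne hsim)
    · apply pow_ne_zero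
      rw [← Gammaℝ_mul_Gammaℝ_add_one]
      exact mul_ne_zero (gammaR_ne hsim) (gammaR_ne (by simpa using hsim))
  have hgs0 : 0 < ‖gK K s‖ := norm_pos_iff.mpr hgs
  -- the functional equation
  have h1 := congrArg norm (hfe s hsim)
  rw [← hw] at h1
  unfold comp at h1
  rw [norm_mul, norm_mul, norm_mul, norm_mul, norm_cpow_eq_rpow_re_of_pos hD0,
    norm_cpow_eq_rpow_re_of_pos hD0, hg] at h1
  have e1 : (s / 2).re = s.re / 2 := by simp
  have e2 : (w / 2).re = w.re / 2 := by simp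
  rw [e1, e2, hs1, hwre] at h1
  have hDs : 0 < D ^ ((1 - B) / 2) := Real.rpow_pos_of_pos hD0 _
  have e3 : D ^ (B / 2) = D ^ ((1 - B) / 2) * D ^ (B - 1 / 2) := by
    rw [← Real.rpow_add hD0]; congr 1; ring
  rw [e3] at h1
  have h2 : ‖Z s‖ = D ^ (B - 1 / 2) * (‖Fk 0 w‖ ^ nrRealPlaces K *
      (‖Fk 0 w‖ * ‖Fk 1 w‖) ^ nrComplexPlaces K) * ‖Z w‖ := by
    have h3 : D ^ ((1 - B) / 2) * ‖gK K s‖ ≠ 0 := (mul_pos hDs hgs0).ne'
    apply mul_left_cancel₀ h3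
    rw [h1]; ring
  rw [h2]
  have hsp : 0 ≤ s.im := by linarith
  calc D ^ (B - 1 / 2) * (‖Fk 0 w‖ ^ nrRealPlaces K *
      (‖Fk 0 w‖ * ‖Fk 1 w‖) ^ nrComplexPlaces K) * ‖Z w‖
      ≤ D ^ (B - 1 / 2) * ((C * s.im ^ m) ^ nrRealPlaces K *
      ((C * s.im ^ m) * (C * s.im ^ m)) ^ nrComplexPlaces K) * (M + 1) := by
        have : ‖Z w‖ ≤ M + 1 := by linarith
        gcongr
    _ = _ := by
        rw [pow_add, pow_mul, pow_mul, pow_add]
        simp only [mul_pow]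
        ring

/-- crude bound -/
lemma crude (K : Type) [Field K] [NumberField K] (Z : ℂ → ℂ)
    (hb : ∀ b : ℝ, ∃ C : ℝ, ∀ s : ℂ, |s.re| ≤ b → 1 ≤ |s.im| → ‖comp K Z s‖ ≤ C) (b : ℝ) :
    ∃ A c : ℝ, 0 ≤ A ∧ 0 ≤ c ∧ ∀ s : ℂ, |s.re| ≤ b → 1 ≤ |s.im| →
      ‖Z s‖ ≤ A * Real.exp (c * |s.im|) := by
  obtain ⟨C, hC⟩ := hb b
  obtain ⟨c₁, hc₁, h₁⟩ := GammaR_lower b
  obtain ⟨c₂, hc₂, h₂⟩ := GammaC_lower b
  set D : ℝ := |(discr K : ℝ)| with hD
  have hD1 : 1 ≤ D := by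
    rw [hD]
    have : (1 : ℤ) ≤ |discr K| := Int.one_le_abs (discr_ne_zero K)
    exact_mod_cast this
  have hD0 : 0 < D := by linarith
  set r₁ := nrRealPlaces K
  set r₂ := nrComplexPlaces K
  set q : ℝ := D ^ (-b / 2) * (c₁ ^ r₁ * c₂ ^ r₂) with hq
  have hq0 : 0 < q := by positivity
  refine ⟨|C| / q, Real.pi * (r₁ + r₂), by positivity, by positivity, fun s hs1 hs2 => ?_⟩
  have hcomp := hC s hs1 hs2
  unfold comp at hcomp
  rw [norm_mul, norm_mul, norm_cpow_eq_rpow_re_of_pos hD0] at hcomp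
  have e1 : (s / 2).re = s.re / 2 := by simp
  rw [e1] at hcomp
  have h3 : D ^ (-b / 2) ≤ D ^ (s.re / 2) := by
    apply Real.rpow_le_rpow_of_exponent_le hD1
    have := (abs_le.mp hs1).1
    linarith
  have h4 : (c₁ ^ r₁ * c₂ ^ r₂) * Real.exp (-(Real.pi * (r₁ + r₂) * |s.im|)) ≤ ‖gK K s‖ := by
    unfold gK
    rw [norm_mul, norm_pow, norm_pow]
    have h5 := h₁ s hs1 hs2
    have h6 := h₂ s hs1 hs2
    calc (c₁ ^ r₁ * c₂ ^ r₂) * Real.exp (-(Real.pi * (r₁ + r₂) * |s.im|))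
        = (c₁ * Real.exp (-(Real.pi * |s.im|))) ^ r₁ *
          (c₂ * Real.exp (-(Real.pi * |s.im|))) ^ r₂ := by
          rw [mul_pow, mul_pow, ← Real.exp_nat_mul, ← Real.exp_nat_mul]
          have : Real.exp (-(Real.pi * (r₁ + r₂) * |s.im|)) =
              Real.exp (r₁ * -(Real.pi * |s.im|)) * Real.exp (r₂ * -(Real.pi * |s.im|)) := by
            rw [← Real.exp_add]; congr 1; ring
          rw [this]; ring
      _ ≤ _ := by gcongr
  have h7 : q * Real.exp (-(Real.pi * (r₁ + r₂) * |s.im|)) * ‖Z s‖ ≤ |C| := by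
    calc q * Real.exp (-(Real.pi * (r₁ + r₂) * |s.im|)) * ‖Z s‖
        = D ^ (-b / 2) * ((c₁ ^ r₁ * c₂ ^ r₂) * Real.exp (-(Real.pi * (r₁ + r₂) * |s.im|))) *
          ‖Z s‖ := by rw [hq]; ring
      _ ≤ D ^ (s.re / 2) * ‖gK K s‖ * ‖Z s‖ := by gcongr
      _ ≤ |C| := hcomp.trans (le_abs_self C)
  have h8 : Real.exp (Real.pi * (r₁ + r₂) * |s.im|) * Real.exp (-(Real.pi * (r₁ + r₂) * |s.im|)) = 1 := by
    rw [← Real.exp_add, add_neg_cancel, Real.exp_zero]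
  rw [div_mul_eq_mul_div, le_div_iff₀ hq0]
  calc ‖Z s‖ * q = Real.exp (Real.pi * (r₁ + r₂) * |s.im|) *
        (q * Real.exp (-(Real.pi * (r₁ + r₂) * |s.im|)) * ‖Z s‖) := by
        linear_combination (-(‖Z s‖ * q)) * h8
    _ ≤ Real.exp (Real.pi * (r₁ + r₂) * |s.im|) * |C| := by gcongr
    _ = _ := by ring

/-- Module GW. -/
theorem gw : T_GW := by
  intro K _ _ Z hZ hfe hb b
  set B := max b 1 + 1 with hB
  have hB2 : 2 ≤ B := by have := le_max_right b 1; linarith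
  have hbB : b + 1 ≤ B := by have := le_max_left b 1; linarith
  obtain ⟨C₁, N, hC₁, hl⟩ := left_edge K Z hZ hfe B (by linarith)
  obtain ⟨A, c, hA, hc, hcr⟩ := crude K Z hb B
  obtain ⟨M, hM0, hM⟩ := zeta_line K Z hZ B (by linarith)
  set M' : ℝ := C₁ + M + A * Real.exp c + 1 with hM'
  have hM'0 : 0 < M' := by positivity
  have hne : ∀ s : ℂ, 0 < s.im → s ^ N ≠ 0 := by
    intro s hs
    apply pow_ne_zero
    rintro rfl
    simp at hs
  have himn : ∀ s : ℂ, 1 ≤ s.im → s.im ^ N ≤ ‖s ^ N‖ := by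
    intro s hs
    rw [norm_pow]
    apply pow_le_pow_left₀ (by linarith)
    exact (le_abs_self _).trans (abs_im_le_norm s)
  have hn1 : ∀ s : ℂ, 1 ≤ s.im → 1 ≤ ‖s ^ N‖ := by
    intro s hs
    exact (one_le_pow₀ hs).trans (himn s hs)
  have key := half_strip (fun s => Z s / s ^ N) (1 - B) B (by linarith)
    (fun s hs => (hZ.1 s hs.ne').div (by fun_prop) (hne s hs)) A c
    (by
      intro s h1 h2 h3
      have h4 := hcr s (abs_le.mpr ⟨by linarith, h2⟩) (by rw [abs_of_pos (by linarith)]; exact h3)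
      rw [abs_of_pos (by linarith : 0 < s.im)] at h4
      rw [norm_div]
      exact (div_le_self (norm_nonneg _) (hn1 s h3)).trans h4)
    M' hM'0
    (by
      intro s h1 h2
      rw [norm_div, div_le_iff₀ (norm_pos_iff.mpr (hne s (by linarith)))]
      calc ‖Z s‖ ≤ C₁ * s.im ^ N := hl s h1 h2
        _ ≤ M' * ‖s ^ N‖ := by
            apply mul_le_mul _ (himn s h2) (by positivity) hM'0.le
            have : 0 ≤ A * Real.exp c := by positivity
            linarith)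
    (by
      intro s h1 h2
      rw [norm_div]
      refine (div_le_self (norm_nonneg _) (hn1 s h2)).trans ?_
      have h3 : ‖Z s‖ ≤ M := hM s h1
      have : 0 ≤ A * Real.exp c := by positivity
      linarith)
    (by
      intro s h1 h2 h3
      rw [norm_div]
      refine (div_le_self (norm_nonneg _) (hn1 s h3.ge)).trans ?_
      have h4 := hcr s (abs_le.mpr ⟨by linarith, h2⟩) (by rw [h3, abs_one])
      rw [h3, abs_one, mul_one] at h4
      linarith)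
  refine ⟨max (M' * (B + 1) ^ N) N + 1, by positivity, fun s h1 h2 => ?_⟩
  have h3 := key s (by have := (abs_le.mp h1).1; linarith)
    (by have := (abs_le.mp h1).2; linarith) h2
  rw [norm_div, div_le_iff₀ (norm_pos_iff.mpr (hne s (by linarith)))] at h3
  have h4 : ‖s‖ ≤ (B + 1) * s.im := by
    calc ‖s‖ ≤ |s.re| + |s.im| := norm_le_abs_re_add_abs_im s
      _ ≤ b + s.im := by rw [abs_of_pos (by linarith : 0 < s.im)]; linarith
      _ ≤ (B + 1) * s.im := by nlinarith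
  calc ‖Z s‖ ≤ M' * ‖s ^ N‖ := h3
    _ ≤ M' * ((B + 1) * s.im) ^ N := by rw [norm_pow]; gcongr
    _ = M' * (B + 1) ^ N * s.im ^ N := by rw [mul_pow]; ring
    _ ≤ (max (M' * (B + 1) ^ N) N + 1) * s.im ^ (max (M' * (B + 1) ^ N) N + 1) := by
        apply mul_le_mul
        · have := le_max_left (M' * (B + 1) ^ N) (N : ℝ)
          linarith
        · rw [← Real.rpow_natCast s.im N]
          apply Real.rpow_le_rpow_of_exponent_le h2
          have := le_max_right (M' * (B + 1) ^ N) (N : ℝ)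
          linarith
        · positivity
        · positivity

end Pool.Agent.H94.HK
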